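import Pool.Agent.TH176.FB.Fat2
import Pool.Agent.TH176.FB.J25

/-!
# The Hilbert function of `t ^ n` general fat points of multiplicity `m` in `ℙⁿ`, for every `n`

Let `n ≥ 1`, `t ≥ 2` and `m ≥ 1`. The Hilbert function of `t ^ n` general points of multiplicity `m`
in `ℙⁿ` has the expected value `min (binom (d + n) n) (t ^ n * binom (m + n - 1) n)`

* in **every** degree `d`, if `m ≥ (n - 1) t ^ n`;
* for every `m`, in every degree `d = t m + c` which is not in the window
  `0 ≤ c < ((n - 1) t - n - 1) / 2`, and also inside of the window if there is no hypersurface of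
  degree `t + c` through `t ^ n` general points, `binom (t + c + n) n ≤ t ^ n`.

So for every `n` and `t` there are only finitely many pairs `(m, d)` for which the value is not
determined; there are none for `2 ^ n` points, `n ≤ 5` or `n = 7`, for `3 ^ n` points, `n ≤ 4`, and
for `4 ^ n` or `5 ^ n` points, `n ≤ 3`; for instance none for `16` or `81` points of `ℙ⁴` and `32`
points of `ℙ⁵`. The starting result `CubesInSpace` is the case `n = 3`, with a better bound for `m`.

* If `c ≥ ((n - 1) t - n - 1) / 2`, the conditions are independent for suitable points on a complete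
  intersection curve.
* If `c < 0`, there are no forms of degree `d` with multiplicity `m` at the points of a grid.
* In the window the space degenerates to the normal cones of the flag of complete intersections
  containing the monomial curve `u ↦ (u, u ^ t, …, u ^ (t ^ (n - 1)))`. All but `n - 1` of the points
  are placed on the curve and the others on the coordinate hypersurfaces; the coefficients of a form
  in the normal coordinates are polynomials in `u` with few terms, which vanish one after the other
  by Descartes' rule of signs.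
-/

set_option autoImplicit false

namespace Pool.Agent.Results.MP_b56c98_ag.PerfectPowers

open MvPolynomial
open scoped LinearAlgebra.Projectivization
open Pool.Agent.H350R3.MG

/-- The `m`-th symbolic power of the ideal of the points `P₁, …, P_r`. -/
noncomputable def symbolicPower {n r : ℕ} (m : ℕ) (P : Fin r → ℙ ℂ (Fin (n + 1) → ℂ)) :
    Ideal (MvPolynomial (Fin (n + 1)) ℂ) :=
  ⨅ i, primeIdeal (P i) ^ m

/-- The Hilbert function `dim R_d - dim J_d` of `R / J`. -/
noncomputable def hilbert {n : ℕ} (J : Ideal (MvPolynomial (Fin (n + 1)) ℂ)) (d : ℕ) : ℤ :=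
  (Module.finrank ℂ (homogeneousSubmodule (Fin (n + 1)) ℂ d) : ℤ) -
    Module.finrank ℂ (homogeneousSubmodule (Fin (n + 1)) ℂ d ⊓ Submodule.restrictScalars ℂ J :
      Submodule ℂ (MvPolynomial (Fin (n + 1)) ℂ))

/-- `h` is the value `H_{n,r,m}(d)` of the Hilbert function of `R / I^(m)` for `r` general points:
the value is `h` for all the `r`-tuples of points in a nonempty Zariski open set. -/
def IsGeneralHilbertValue (n r m d : ℕ) (h : ℤ) : Prop :=
  Generally (fun P : Fin r → ℙ ℂ (Fin (n + 1) → ℂ) => hilbert (symbolicPower m P) d = h)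

/-- The numbers of points and dimensions without exceptions. -/
lemma special (n t c : ℕ) (hs : (t = 2 ∧ (n ≤ 5 ∨ n = 7)) ∨ (t = 3 ∧ n ≤ 4) ∨ (t ≤ 5 ∧ n ≤ 3))
    (ht : 2 ≤ t) (hn : 1 ≤ n) (hc : 2 * c + n + 1 < (n - 1) * t) :
    (t + c + n).choose n ≤ t ^ n := by
  have h7 : n ≤ 7 := by omega
  have h5 : t ≤ 5 := by omega
  interval_cases t <;> interval_cases n <;> first | omega | skip
  all_goals
    have hc3 : c ≤ 2 := by omega
    interval_cases c <;> first | omega | decide

/-- The Hilbert function of `t ^ n` general points of multiplicity `m` in `ℙⁿ`: in every degree if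
`m ≥ (n - 1) t ^ n`, outside of a window for all `m`, and always for some `n` and `t`. -/
theorem result (n t m d : ℕ) (hn : 1 ≤ n) (ht : 2 ≤ t) (hm : 1 ≤ m)
    (h : (n - 1) * t ^ n ≤ m ∨ d < t * m ∨ 2 * t * m + (n - 1) * t ≤ 2 * d + n + 1 ∨
      (d + t + n - t * m).choose n ≤ t ^ n ∨
      ((t = 2 ∧ (n ≤ 5 ∨ n = 7)) ∨ (t = 3 ∧ n ≤ 4) ∨ (t ≤ 5 ∧ n ≤ 3))) :
    IsGeneralHilbertValue n (t ^ n) m d
      (min ((d + n).choose n) (t ^ n * (m + n - 1).choose n) : ℕ) := by
  have h : (n - 1) * t ^ n ≤ m ∨ d < t * m ∨ 2 * t * m + (n - 1) * t ≤ 2 * d + n + 1 ∨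
      (d + t + n - t * m).choose n ≤ t ^ n := by
    rcases h with h | h | h | h | h
    · exact Or.inl h
    · exact Or.inr (Or.inl h)
    · exact Or.inr (Or.inr (Or.inl h))
    · exact Or.inr (Or.inr (Or.inr h))
    · rcases lt_or_ge d (t * m) with h1 | h1
      · exact Or.inr (Or.inl h1)
      · obtain ⟨c, hc⟩ : ∃ c, d = t * m + c := ⟨d - t * m, by omega⟩
        by_cases h2 : 2 * c + n + 1 < (n - 1) * t
        · refine Or.inr (Or.inr (Or.inr ?_))
          have e : d + t + n - t * m = t + c + n := by omega
          rw [e]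
          exact special n t c h ht hn h2
        · refine Or.inr (Or.inr (Or.inl ?_))
          have e : 2 * t * m = 2 * (t * m) := by ring
          rw [e, hc]
          omega
  obtain ⟨k, rfl⟩ : ∃ k, n = k + 1 := ⟨n - 1, by omega⟩
  rw [Nat.add_sub_cancel] at h
  have key : Pool.Agent.H938R2.ForGeneral (k + 2) (t ^ (k + 1)) (fun p =>
      Module.finrank ℂ (Pool.Agent.H938R2.forms (k + 2) d (fun _ => m) p) =
        (d + (k + 1)).choose (k + 1) - t ^ (k + 1) * (m + k).choose (k + 1)) := by
    rcases lt_or_ge d (t * m) with h1 | h1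
    · exact Pool.Agent.TH176.FB.fat_low k t m d (by omega) h1
    rcases h with h | h | h | h
    · exact Pool.Agent.TH176.FB.fat_all k t m d ht hm h
    · omega
    · exact Pool.Agent.TH176.FB.fat_indep k t m d ht (by omega)
    · obtain ⟨c, hc⟩ : ∃ c, d = t * m + c := ⟨d - t * m, by omega⟩
      have e1 : d + t + (k + 1) - t * m = t + c + k + 1 := by omega
      rw [e1] at h
      have h4 := Pool.Agent.TH176.FB.fat_simple k t m (t + c) (by omega) hm h
      have h5 : t + c + t * (m - 1) = d := by
        obtain ⟨m', rfl⟩ : ∃ m', m = m' + 1 := ⟨m - 1, by omega⟩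
        rw [hc, Nat.add_sub_cancel]
        ring
      rw [h5] at h4
      exact h4
  obtain ⟨D, hD, h⟩ := key
  refine generally_of_poly D hD fun v hv hp => ?_
  have h1 := h v hp
  have e2 : m + (k + 1) - 1 = m + k := by omega
  unfold hilbert symbolicPower
  rw [Pool.Agent.TH176.FB.forms_eq_symbolic v hv, h1,
    Pool.Agent.TH206.Fro.dim_thm (k + 2) d ℂ, Pool.Agent.TH176.FB.card_Mon_choose (k + 1) d, e2]
  omega

end Pool.Agent.Results.MP_b56c98_ag.PerfectPowers
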