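import Mathlib
import Pool.Agent.TH3.IR.Proj
import Pool.Agent.TH760.EN.Asm
import Pool.Agent.TH864.SX.Final13
import Pool.Agent.TH864.SX.Eleven
import Pool.Agent.TH469.SX.TwentyOne
import Pool.Agent.TH469.SX.Fifteen
import Pool.Agent.TH641.NW.End2
import Pool.Agent.H932R3.NearFinal
import Pool.Agent.TH603.Sur.Uni

set_option autoImplicit false

/-!
# The Hilbert function of `r` general fat points of the projective plane

The case `n = 2` of the question: `R = ℂ[x₀, x₁, x₂]`, `r` general points of the projective plane and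
any multiplicity `m ≥ 1`. Then `H_{2,r,m}(d) = min (binom (d + 2) 2) (r * binom (m + 1) 2)`

* for ALL `m` and ALL `d`, if `r ≥ 37`, or `r = 13`, `r = 21`, or `r ≥ 10` is a perfect square;
* for all `m` and all degrees `d` but one, for every other `r ≥ 10`, and also for this degree if it
  is not divisible by three and `r = 11, 15`, or if it is outside of a window of length `< 1`.
-/

namespace Pool.Agent.Results.MP_b56c98_ag.PlaneAllDegrees

open MvPolynomial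
open scoped LinearAlgebra.Projectivization
open Pool.Agent.H350R3.MG Pool.Agent.TH3.IR

/-- The `m`-th symbolic power of the ideal of the points `P₁, …, P_r`. -/
noncomputable def symbolicPower {n r : ℕ} (m : ℕ) (P : Fin r → ℙ ℂ (Fin (n + 1) → ℂ)) :
    Ideal (MvPolynomial (Fin (n + 1)) ℂ) :=
  ⨅ i, primeIdeal (P i) ^ m

/-- The Hilbert function `dim R_d - dim J_d` of `R / J`. -/
noncomputable def hilbert {n : ℕ} (J : Ideal (MvPolynomial (Fin (n + 1)) ℂ)) (d : ℕ) : ℤ :=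
  (Module.finrank ℂ (homogeneousSubmodule (Fin (n + 1)) ℂ d) : ℤ) -
    Module.finrank ℂ (homogeneousSubmodule (Fin (n + 1)) ℂ d ⊓ Submodule.restrictScalars ℂ J :
      Submodule ℂ (MvPolynomial (Fin (n + 1)) ℂ))

/-- The cyclic change of the coordinates. -/
noncomputable def rot : MvPolynomial (Fin 3) ℂ ≃ₐ[ℂ] MvPolynomial (Fin 3) ℂ :=
  renameEquiv ℂ (finRotate 3)

theorem rot_X (i : Fin 3) : rot (X i) = X (finRotate 3 i) := by
  simp [rot]

theorem rot_C (c : ℂ) : rot (C c) = C c := by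
  simp [rot]

theorem map_span_rot (p : Fin 2 → ℂ) :
    Ideal.map (rot : MvPolynomial (Fin 3) ℂ →+* MvPolynomial (Fin 3) ℂ)
      (Ideal.span ({X 0 - C (p 0) * X 2, X 1 - C (p 1) * X 2} : Set (MvPolynomial (Fin 3) ℂ))) =
    Ideal.span (Set.range fun j : Fin 2 =>
        (X j.succ - C (p j) * X 0 : MvPolynomial (Fin 3) ℂ)) := by
  rw [Ideal.map_span]
  congr 1
  have e0 : finRotate 3 0 = 1 := by decide
  have e1 : finRotate 3 1 = 2 := by decide
  have e2 : finRotate 3 2 = 0 := by decide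
  ext f
  constructor
  · rintro ⟨g, hg, rfl⟩
    rcases hg with rfl | hg
    · refine ⟨0, ?_⟩
      simp only [RingHom.coe_coe, map_sub, map_mul, rot_X, rot_C, e0, e2]
      rfl
    · rw [Set.mem_singleton_iff] at hg
      subst hg
      refine ⟨1, ?_⟩
      simp only [RingHom.coe_coe, map_sub, map_mul, rot_X, rot_C, e1, e2]
      rfl
  · rintro ⟨j, rfl⟩
    fin_cases j
    · refine ⟨X 0 - C (p 0) * X 2, Or.inl rfl, ?_⟩
      simp only [RingHom.coe_coe, map_sub, map_mul, rot_X, rot_C, e0, e2]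
      rfl
    · refine ⟨X 1 - C (p 1) * X 2, Or.inr rfl, ?_⟩
      simp only [RingHom.coe_coe, map_sub, map_mul, rot_X, rot_C, e1, e2]
      rfl


theorem cons_ne (p : Fin 2 → ℂ) : (Fin.cons 1 p : Fin (2 + 1) → ℂ) ≠ 0 := by
  intro h0
  have := congrFun h0 0
  simp at this

theorem finrank_eq {r m d : ℕ} (P : Fin r → Fin 2 → ℂ) (hv : ∀ i, (Fin.cons 1 (P i) : Fin (2 + 1) → ℂ) ≠ 0) :
    Module.finrank ℂ (homogeneousSubmodule (Fin (2 + 1)) ℂ d ⊓ Submodule.restrictScalars ℂ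
      (symbolicPower m fun i => Projectivization.mk ℂ (Fin.cons 1 (P i) : Fin (2 + 1) → ℂ) (hv i)) :
      Submodule ℂ (MvPolynomial (Fin (2 + 1)) ℂ)) =
    Module.finrank ℂ
      ↥(homogeneousSubmodule (Fin 3) ℂ d ⊓
        Submodule.restrictScalars ℂ
          (⨅ i : Fin r, (Ideal.span ({X 0 - C (P i 0) * X 2, X 1 - C (P i 1) * X 2} :
            Set (MvPolynomial (Fin 3) ℂ))) ^ m)) := by
  set V := homogeneousSubmodule (Fin 3) ℂ d ⊓
        Submodule.restrictScalars ℂ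
          (⨅ i : Fin r, (Ideal.span ({X 0 - C (P i 0) * X 2, X 1 - C (P i 1) * X 2} :
            Set (MvPolynomial (Fin 3) ℂ))) ^ m) with hV
  have hinj : Function.Injective (finRotate 3) := (finRotate 3).injective
  have key : ∀ G : MvPolynomial (Fin 3) ℂ, rot G ∈ (homogeneousSubmodule (Fin (2 + 1)) ℂ d ⊓
      Submodule.restrictScalars ℂ
      (symbolicPower m fun i => Projectivization.mk ℂ (Fin.cons 1 (P i) : Fin (2 + 1) → ℂ) (hv i)) :
      Submodule ℂ (MvPolynomial (Fin (2 + 1)) ℂ)) ↔ G ∈ V := by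
    intro G
    rw [hV, Submodule.mem_inf, Submodule.mem_inf, Submodule.restrictScalars_mem,
      Submodule.restrictScalars_mem, mem_homogeneousSubmodule, mem_homogeneousSubmodule]
    refine and_congr ?_ ?_
    · exact IsHomogeneous.rename_isHomogeneous_iff hinj
    · unfold symbolicPower
      rw [Ideal.mem_iInf, Ideal.mem_iInf]
      refine forall_congr' fun i => ?_
      rw [primeIdeal_cons, ← map_span_rot, ← Ideal.map_pow]
      have h1 := Ideal.comap_map_of_bijective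
        (rot : MvPolynomial (Fin 3) ℂ →+* MvPolynomial (Fin 3) ℂ) rot.bijective
        (I := (Ideal.span ({X 0 - C (P i 0) * X 2, X 1 - C (P i 1) * X 2} :
            Set (MvPolynomial (Fin 3) ℂ))) ^ m)
      conv_rhs => rw [← h1]
      rfl
  have hmap : V.map (rot.toLinearEquiv : MvPolynomial (Fin 3) ℂ →ₗ[ℂ] MvPolynomial (Fin 3) ℂ) =
      (homogeneousSubmodule (Fin (2 + 1)) ℂ d ⊓
      Submodule.restrictScalars ℂ
      (symbolicPower m fun i => Projectivization.mk ℂ (Fin.cons 1 (P i) : Fin (2 + 1) → ℂ) (hv i)) :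
      Submodule ℂ (MvPolynomial (Fin (2 + 1)) ℂ)) := by
    ext G
    rw [Submodule.mem_map]
    constructor
    · rintro ⟨H, hH, rfl⟩
      exact (key H).2 hH
    · intro hG
      refine ⟨rot.symm G, (key _).1 ?_, ?_⟩
      · rw [AlgEquiv.apply_symm_apply]
        exact hG
      · exact rot.apply_symm_apply G
  rw [← hmap]
  exact LinearEquiv.finrank_map_eq rot.toLinearEquiv V

/-- For `r` general points of the projective plane (one nonempty open set of `r`-tuples for all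
degrees) the Hilbert function of `R / I^(m)` has the value
`min (binom (2 + d) 2) (r * binom (2 + m - 1) 2)` in every degree `d` with `good d`; this is
`H_{2,r,m}(d)`. -/
def PlaneFormula (r m : ℕ) (good : ℕ → Prop) : Prop :=
  Generally (fun P : Fin r → ℙ ℂ (Fin (2 + 1) → ℂ) => ∀ d : ℕ, good d →
    hilbert (symbolicPower m P) d = ((min ((2 + d).choose 2) (r * (2 + m - 1).choose 2) : ℕ) : ℤ))

theorem formula_of {r m : ℕ} {good : ℕ → Prop}
    (h : ∃ F : MvPolynomial (Fin r × Fin 2) ℚ, F ≠ 0 ∧ ∀ P : Fin r → Fin 2 → ℂ,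
      MvPolynomial.aeval (fun ij : Fin r × Fin 2 => P ij.1 ij.2) F ≠ 0 →
      ∀ d : ℕ, good d → H932R3.ExpDim ℂ (fun _ => m) P d) : PlaneFormula r m good := by
  obtain ⟨F, hF, hF'⟩ := h
  refine generally_of_affine (F.map (algebraMap ℚ ℂ)) (H932R3.map_ne_zero_of hF)
    fun P hv hP d hd => ?_
  rw [MvPolynomial.eval_map] at hP
  have h2 := hF' P hP d hd
  unfold H932R3.ExpDim at h2
  rw [Finset.sum_const, Finset.card_univ, Fintype.card_fin, smul_eq_mul] at h2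
  unfold hilbert
  rw [finrank_eq P hv, h2]
  have h3 : Module.finrank ℂ (homogeneousSubmodule (Fin (2 + 1)) ℂ d) = (d + 2).choose 2 :=
    TH603.Sur.finrank_forms (K := ℂ) d
  rw [h3, show 2 + d = d + 2 by omega, show 2 + m - 1 = m + 1 by omega]
  rcases le_total ((d + 2).choose 2) (r * (m + 1).choose 2) with h4 | h4
  · rw [min_eq_left h4, Nat.sub_eq_zero_of_le h4]
    simp
  · rw [min_eq_right h4, Nat.cast_sub h4]
    ring

theorem near_square {s m : ℕ} (hs : 10 ≤ s * s) (hm : 1 ≤ m) :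
    ∃ F : MvPolynomial (Fin (s * s) × Fin 2) ℚ, F ≠ 0 ∧ ∀ P : Fin (s * s) → Fin 2 → ℂ,
      MvPolynomial.aeval (fun ij : Fin (s * s) × Fin 2 => P ij.1 ij.2) F ≠ 0 →
      ∀ d : ℕ, H932R3.ExpDim ℂ (fun _ => m) P d := by
  have hs2 : 2 ≤ s := by
    by_contra hcon
    have : s ≤ 1 := by omega
    have := Nat.mul_le_mul this this
    omega
  exact H932R3.near_points (L := ℂ) (w := fun _ => m) hs hm (fun _ => Or.inl rfl)
    (H932R3.near_cond (by omega) (fun _ => Or.inl rfl)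
      (Or.inr ⟨s, 0, hs2, by ring, Or.inl rfl⟩))

/-- All degrees. -/
theorem all_of {r m : ℕ} (hm : 1 ≤ m)
    (hr : 37 ≤ r ∨ r = 13 ∨ r = 21 ∨ (10 ≤ r ∧ IsSquare r)) :
    ∃ F : MvPolynomial (Fin r × Fin 2) ℚ, F ≠ 0 ∧ ∀ P : Fin r → Fin 2 → ℂ,
      MvPolynomial.aeval (fun ij : Fin r × Fin 2 => P ij.1 ij.2) F ≠ 0 →
      ∀ d : ℕ, H932R3.ExpDim ℂ (fun _ => m) P d := by
  rcases hr with hr | rfl | rfl | ⟨hr, s, rfl⟩
  · obtain ⟨F, hF, hF'⟩ := TH760.EN.expDim37 (L := ℂ) hr hm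
    exact ⟨F, hF, fun P hP d => hF' P hP d⟩
  · obtain ⟨F, hF, hF'⟩ := TH864.SX.uniform13 m
    exact ⟨F, hF, fun P hP d => hF' P hP d⟩
  · obtain ⟨F, hF, hF'⟩ := TH469.SX.twentyone m
    exact ⟨F, hF, fun P hP d => hF' P hP d⟩
  · exact near_square hr hm

/-- The degrees which are not divisible by three. -/
theorem three_of {r m : ℕ} (hr : r = 11 ∨ r = 15) :
    ∃ F : MvPolynomial (Fin r × Fin 2) ℚ, F ≠ 0 ∧ ∀ P : Fin r → Fin 2 → ℂ,
      MvPolynomial.aeval (fun ij : Fin r × Fin 2 => P ij.1 ij.2) F ≠ 0 →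
      ∀ d : ℕ, ¬ 3 ∣ d → H932R3.ExpDim ℂ (fun _ => m) P d := by
  rcases hr with rfl | rfl
  · obtain ⟨F, hF, hF'⟩ := TH864.SX.uniform11 m
    exact ⟨F, hF, fun P hP d hd => hF' P hP d (Or.inl hd)⟩
  · obtain ⟨F, hF, hF'⟩ := TH469.SX.fifteen m
    exact ⟨F, hF, fun P hP d hd => hF' P hP d (Or.inl hd)⟩

theorem opt {r m : ℕ} {p : Prop} {q : ℕ → Prop} (h : p → ∃ F : MvPolynomial (Fin r × Fin 2) ℚ,
      F ≠ 0 ∧ ∀ P : Fin r → Fin 2 → ℂ,
      MvPolynomial.aeval (fun ij : Fin r × Fin 2 => P ij.1 ij.2) F ≠ 0 →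
      ∀ d : ℕ, q d → H932R3.ExpDim ℂ (fun _ => m) P d) :
    ∃ F : MvPolynomial (Fin r × Fin 2) ℚ, F ≠ 0 ∧ ∀ P : Fin r → Fin 2 → ℂ,
      MvPolynomial.aeval (fun ij : Fin r × Fin 2 => P ij.1 ij.2) F ≠ 0 →
      ∀ d : ℕ, p → q d → H932R3.ExpDim ℂ (fun _ => m) P d := by
  by_cases hp : p
  · obtain ⟨F, hF, hF'⟩ := h hp
    exact ⟨F, hF, fun P hP d _ => hF' P hP d⟩
  · exact ⟨1, one_ne_zero, fun P _ d h' => absurd h' hp⟩

/-- Let `r ≥ 10` and `m ≥ 1`. There is a degree `d₀` such that, for `r` general points of the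
plane, `H_{2,r,m}(d) = min (binom (d + 2) 2) (r * binom (m + 1) 2)` for every `d ≠ d₀`, and also
for `d = d₀` if `r ≥ 37`, or `r = 13`, or `r = 21`, or `r` is a perfect square, or `r = 11, 15` and
`d₀` is not divisible by three, or `2 d₀ + 3` is outside of the given window. -/
theorem result (r m : ℕ) (hr : 10 ≤ r) (hm : 1 ≤ m) : ∃ d₀ : ℕ, PlaneFormula r m fun d =>
    d ≠ d₀ ∨ 37 ≤ r ∨ r = 13 ∨ r = 21 ∨ IsSquare r ∨ ((r = 11 ∨ r = 15) ∧ ¬ 3 ∣ d) ∨
      2 * (d : ℝ) + 3 < √(r : ℝ) * (2 * m + 1) - min (√(r : ℝ) - 3) (2 / 3 + 9 / (4 * √(r : ℝ))) ∨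
      √(r : ℝ) * (2 * m + 1) + min (√(r : ℝ) - 3) (2 / 3 + 1 / (4 * √(r : ℝ))) <
        2 * (d : ℝ) + 3 := by
  obtain ⟨F1, hF1, hF1'⟩ := TH641.NW.expDim_all_but_one (L := ℂ) hr hm
  obtain ⟨F2, hF2, hF2'⟩ := TH641.NW.expDim_uni_win2 (L := ℂ) hr hm
  obtain ⟨F3, hF3, hF3'⟩ := opt (r := r) (m := m)
    (p := 37 ≤ r ∨ r = 13 ∨ r = 21 ∨ (10 ≤ r ∧ IsSquare r)) (q := fun _ => True) fun h => by
      obtain ⟨F, hF, hF'⟩ := all_of hm h
      exact ⟨F, hF, fun P hP d _ => hF' P hP d⟩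
  obtain ⟨F4, hF4, hF4'⟩ := opt (r := r) (m := m)
    (p := r = 11 ∨ r = 15) (q := fun d => ¬ 3 ∣ d) three_of
  refine ⟨TH641.NW.dcrit r m, formula_of ⟨F1 * F2 * F3 * F4,
    mul_ne_zero (mul_ne_zero (mul_ne_zero hF1 hF2) hF3) hF4, fun P hP d hd => ?_⟩⟩
  rw [map_mul, map_mul, map_mul] at hP
  have q4 := right_ne_zero_of_mul hP
  have q3 := right_ne_zero_of_mul (left_ne_zero_of_mul hP)
  have q2 := right_ne_zero_of_mul (left_ne_zero_of_mul (left_ne_zero_of_mul hP))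
  have q1 := left_ne_zero_of_mul (left_ne_zero_of_mul (left_ne_zero_of_mul hP))
  rcases hd with hd | hd | hd | hd | hd | hd | hd | hd
  · exact hF1' P q1 d hd
  · exact hF3' P q3 d (Or.inl hd) trivial
  · exact hF3' P q3 d (Or.inr (Or.inl hd)) trivial
  · exact hF3' P q3 d (Or.inr (Or.inr (Or.inl hd))) trivial
  · exact hF3' P q3 d (Or.inr (Or.inr (Or.inr ⟨hr, hd⟩))) trivial
  · exact hF4' P q4 d hd.1 hd.2
  · exact hF2' P q2 d (Or.inl (by linarith))
  · exact hF2' P q2 d (Or.inr (by linarith))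

end Pool.Agent.Results.MP_b56c98_ag.PlaneAllDegrees
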